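import Mathlib
import Pool.Agent.Helper18.UW.GoalsG

/-!
# Project UW, packet E13v: the special points satisfy `Ext`
-/

set_option autoImplicit false

namespace Pool.Agent.Helper19.UW

open Finset Pool.Agent.Helper18.EW Pool.Agent.Helper18.UW
open Pool.Agent.Helper43.Hw (T na va lz Play aa ac sc oo sk U Dd Sd Pn nx bb np)

theorem two_T (n : ℕ) : 2 * T n = n * (n + 1) := by
  unfold T
  exact Nat.mul_div_cancel' (Nat.even_mul_succ_self n).two_dvd

theorem T_succ (n : ℕ) : T (n + 1) = T n + (n + 1) := by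
  have h1 := two_T n
  have h2 := two_T (n + 1)
  nlinarith

/-- the arithmetic progression -/
theorem sum_len {R s : ℕ} {ℓ : ℕ → ℕ} (hL : ∀ y, s ≤ y → y + 1 < R → ℓ (y + 1) = ℓ y + 1) :
    ∀ d y : ℕ, s ≤ y → y + d + 1 = R →
      ∑ z ∈ range y, ℓ z + (d + 1) * ℓ y + T d = ∑ z ∈ range R, ℓ z := by
  intro d
  induction d with
  | zero =>
    intro y hy hR
    have h0 : T 0 = 0 := by
      have := two_T 0
      omega
    rw [← hR, h0, add_zero, add_zero, sum_range_succ]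
    ring
  | succ d ih =>
    intro y hy hR
    have h1 := ih (y + 1) (by omega) (by omega)
    rw [sum_range_succ, hL y hy (by omega)] at h1
    rw [← h1, T_succ]
    ring

theorem goalE13v (h2 : GoalUG) (h7 : GoalG7u) : GoalE13v := by
  intro μ δ R N K b l Lg q τ s E ℓ ms e P W hμ hP hG hL hW hV hgr
  obtain ⟨⟨g1, g2, g3, g4⟩, g5, g6, f1, f2, f3, fm, f4, f5⟩ := h2 μ δ R K τ s E ms e P hG
  have hts := hG.ts
  have ht1 := hG.t1
  have hJs := hG.Js
  have hmul : 128 * l * K ≤ μ := by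
    refine le_trans ?_ hP.b2
    rw [hP.hK]
    have h0 : b * (q + 1) ≤ b * (q + 1) ^ 2 :=
      Nat.mul_le_mul_left _ (Nat.le_self_pow (by norm_num) _)
    calc 128 * l * (b * (q + 1)) ≤ 128 * l * (b * (q + 1) ^ 2) := Nat.mul_le_mul_left _ h0
      _ = 128 * (b * (q + 1) ^ 2 * l) := by ring
      _ ≤ 2 ^ 33 * (b * (q + 1) ^ 2 * l) := Nat.mul_le_mul_right _ (by norm_num)
      _ = 2 ^ 33 * b * (q + 1) ^ 2 * l := by ring
  -- the bound for the number of skips
  have hQ : ∀ w, 2 ^ 24 * uQ R K τ s ms e P w ≤ 2 ^ 24 * K + (w + 1) * b := by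
    intro w
    have h := h7 μ δ R K τ s E l w ms e P hμ hP.l1 hG hmul hgr
    have hb2 : 2 ^ 31 * b * (q + 1) ^ 2 * l ≤ μ := by
      refine le_trans ?_ hP.b2
      have : 2 ^ 31 * (b * (q + 1) ^ 2 * l) ≤ 2 ^ 33 * (b * (q + 1) ^ 2 * l) :=
        Nat.mul_le_mul_right _ (by norm_num)
      calc 2 ^ 31 * b * (q + 1) ^ 2 * l = 2 ^ 31 * (b * (q + 1) ^ 2 * l) := by ring
        _ ≤ 2 ^ 33 * (b * (q + 1) ^ 2 * l) := this
        _ = 2 ^ 33 * b * (q + 1) ^ 2 * l := by ring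
    have h3 : 2 ^ 24 * (128 * l * K ^ 2 * (w + 1)) ≤ μ * ((w + 1) * b) := by
      have : 2 ^ 24 * (128 * l * K ^ 2 * (w + 1)) =
          (2 ^ 31 * b * (q + 1) ^ 2 * l) * ((w + 1) * b) := by
        rw [hP.hK]
        ring
      rw [this]
      exact Nat.mul_le_mul_right _ hb2
    have h4 : μ * (2 ^ 24 * uQ R K τ s ms e P w) ≤ μ * (2 ^ 24 * K + (w + 1) * b) := by
      calc μ * (2 ^ 24 * uQ R K τ s ms e P w) = 2 ^ 24 * (μ * uQ R K τ s ms e P w) := by ring
        _ ≤ 2 ^ 24 * (μ * K + 128 * l * K ^ 2 * (w + 1)) := Nat.mul_le_mul_left _ h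
        _ = μ * (2 ^ 24 * K) + 2 ^ 24 * (128 * l * K ^ 2 * (w + 1)) := by ring
        _ ≤ μ * (2 ^ 24 * K) + μ * ((w + 1) * b) := Nat.add_le_add_left h3 _
        _ = μ * (2 ^ 24 * K + (w + 1) * b) := by ring
    exact Nat.le_of_mul_le_mul_left h4 hμ
  refine ⟨by omega, ?_, ?_, ?_, ?_, f2, f3, ?_, ?_⟩
  · intro y hy hyR
    have h1 := hL y hy hyR
    have h3 := g5 y hy hyR
    have h4 := hV y (by omega)
    have h5' := hV (y + 1) hyR
    show ℓ (y + 1) - uV R K τ s ms e P (y + 1) = ℓ y - uV R K τ s ms e P y + 1 +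
      uO R K τ s ms e P y + uK K τ s ms e P y
    omega
  · intro y hy hyR
    have hA := sum_len hL (R - 1 - y) y hy (by omega)
    have hRy : R - 1 - y + 1 = R - y := by omega
    rw [hRy] at hA
    have hB := g6 y hy hyR
    have hC : ∑ z ∈ range y, uV R K τ s ms e P z + ∑ z ∈ Ico y R, uV R K τ s ms e P z =
        ∑ i ∈ range K, T (ms i) := by
      rw [← g4]
      exact sum_range_add_sum_Ico _ hyR.le
    have hD : ∑ z ∈ range y, (((ℓ z - uV R K τ s ms e P z : ℕ)) : ℤ) =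
        ∑ z ∈ range y, (ℓ z : ℤ) - ∑ z ∈ range y, (uV R K τ s ms e P z : ℤ) := by
      rw [← sum_sub_distrib]
      apply sum_congr rfl
      intro z hz
      rw [mem_range] at hz
      exact Nat.cast_sub (hV z (by omega))
    have hE : (((ℓ y - uV R K τ s ms e P y : ℕ)) : ℤ) = ℓ y - uV R K τ s ms e P y :=
      Nat.cast_sub (hV y hyR)
    have hA' : ∑ z ∈ range y, (ℓ z : ℤ) + ((R - y : ℕ) : ℤ) * ℓ y + T (R - 1 - y) =
        ∑ z ∈ range R, (ℓ z : ℤ) := by exact_mod_cast hA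
    have hB' : ∑ z ∈ Ico y R, (uV R K τ s ms e P z : ℤ) + uO R K τ s ms e P y * T (R - 1 - y) +
        uS R K τ s ms e P y =
        ((R - y : ℕ) : ℤ) * uV R K τ s ms e P y + uD R K τ s ms e P y := by exact_mod_cast hB
    have hC' : ∑ z ∈ range y, (uV R K τ s ms e P z : ℤ) +
        ∑ z ∈ Ico y R, (uV R K τ s ms e P z : ℤ) = ∑ i ∈ range K, (T (ms i) : ℤ) := by
      exact_mod_cast hC
    show ∑ z ∈ range y, (((ℓ z - uV R K τ s ms e P z : ℕ)) : ℤ) +
      ((R - y : ℕ) : ℤ) * (((ℓ y - uV R K τ s ms e P y : ℕ)) : ℤ) +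
      (((1 : ℕ) : ℤ) + uO R K τ s ms e P y) * T (R - 1 - y) + uS R K τ s ms e P y =
      N * T μ + W + uD R K τ s ms e P y
    rw [hD, hE]
    push_cast
    linear_combination hA' + hW + hB' - hC'
  · intro y hy hyR
    show uO R K τ s ms e P (y + 1) ≤ uO R K τ s ms e P y
    rw [f1 y hy (by omega), f1 (y + 1) (by omega) hyR]
    exact fm _ _ (by omega)
  · intro z y hz hzy hyR
    show uO R K τ s ms e P z + uN R K τ s ms e P (R - 1 - y) ≤
      uO R K τ s ms e P y + uN R K τ s ms e P (R - 1 - z)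
    rw [f1 y (by omega) hyR, f1 z hz (by omega)]
    omega
  · intro y hy hyR
    have hRy : R - 1 - y + 1 = R - y := by omega
    have h := hQ (R - 1 - y)
    rw [hRy] at h
    calc 2 ^ 24 * uS R K τ s ms e P y ≤
          2 ^ 24 * ((R - 1 - y) * uQ R K τ s ms e P (R - 1 - y)) :=
          Nat.mul_le_mul_left _ (f4 y hy hyR)
      _ = (R - 1 - y) * (2 ^ 24 * uQ R K τ s ms e P (R - 1 - y)) := by ring
      _ ≤ (R - 1 - y) * (2 ^ 24 * K + (R - y) * b) := Nat.mul_le_mul_left _ h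
  · intro y hy hyR
    have hRy : R - 1 - y + 1 = R - y := by omega
    have h := hQ (R - 1 - y)
    rw [hRy] at h
    exact (Nat.mul_le_mul_left _ (f5 y hy hyR)).trans h

end Pool.Agent.Helper19.UW
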