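import Mathlib
import Pool.Agent.Helper18.UW.GoalsA
import Pool.Agent.Helper54.Gm.A
import Pool.Agent.Helper49.Gm.F2
import Pool.Agent.Helper89.Gm.G

/-!
# Project UW, packet TL: the triangle with big points of small area and small points
-/

set_option autoImplicit false

namespace Pool.Agent.Helper19.UW

open Finset Pool.Agent.Lead.Sh Pool.Agent.Helper18.UW
open Pool.Agent.Helper43.Gm (Pri SS Run cl Reg)

/-- enumeration of `s` and then `t` -/
theorem enum2 (s t : Finset ℕ) (hst : Disjoint s t) : ∃ σ : ℕ → ℕ,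
    (∀ c < s.card, σ c ∈ s) ∧ (∀ c, s.card ≤ c → c < s.card + t.card → σ c ∈ t) ∧
    (∀ c < s.card + t.card, ∀ c' < s.card + t.card, σ c = σ c' → c = c') ∧
    (∀ g : ℕ → ℕ, ∑ c ∈ range s.card, g (σ c) = ∑ a ∈ s, g a) ∧
    (∀ g : ℕ → ℕ, ∑ c ∈ range (s.card + t.card), g (σ c) = ∑ a ∈ s ∪ t, g a) := by
  classical
  obtain ⟨e1, a1, a2, a3⟩ := Pool.Agent.Helper43.Ah.enum s
  obtain ⟨e2, b1, b2, b3⟩ := Pool.Agent.Helper43.Ah.enum t
  have hs : ∀ c < s.card, (fun c => if c < s.card then e1 c else e2 (c - s.card)) c = e1 c := by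
    intro c hc
    simp only [hc, if_true]
  have ht : ∀ c, s.card ≤ c →
      (fun c => if c < s.card then e1 c else e2 (c - s.card)) c = e2 (c - s.card) := by
    intro c hc
    simp only
    rw [if_neg (by omega)]
  refine ⟨fun c => if c < s.card then e1 c else e2 (c - s.card), ?_, ?_, ?_, ?_, ?_⟩
  · intro c hc
    rw [hs c hc]
    exact a1 c hc
  · intro c hc hc2
    rw [ht c hc]
    exact b1 _ (by omega)
  · intro c hc c' hc' he
    rcases Nat.lt_or_ge c s.card with h | h <;> rcases Nat.lt_or_ge c' s.card with h' | h'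
    · rw [hs c h, hs c' h'] at he
      exact a2 c h c' h' he
    · rw [hs c h, ht c' h'] at he
      exact absurd (he ▸ a1 c h) (disjoint_right.1 hst (b1 (c' - s.card) (by omega)))
    · rw [ht c h, hs c' h'] at he
      exact absurd (he ▸ a1 c' h') (disjoint_right.1 hst (b1 (c - s.card) (by omega)))
    · rw [ht c h, ht c' h'] at he
      have := b2 _ (by omega) _ (by omega) he
      omega
  · intro g
    rw [← a3 g]
    exact sum_congr rfl (fun c hc => by rw [hs c (mem_range.1 hc)])
  · intro g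
    rw [sum_union hst, ← a3 g, ← b3 g, sum_range_add]
    congr 1
    · exact sum_congr rfl (fun c hc => by rw [hs c (mem_range.1 hc)])
    · refine sum_congr rfl (fun c hc => ?_)
      rw [ht (s.card + c) (by omega), Nat.add_sub_cancel_left]

theorem ch2 (n : ℕ) : 2 * (n + 1).choose 2 = n * (n + 1) := by
  have h := Nat.choose_two_right (n + 1)
  rw [Nat.add_sub_cancel] at h
  rw [h, Nat.mul_comm (n + 1) n]
  exact Nat.mul_div_cancel' (Nat.even_mul_succ_self n).two_dvd

theorem ind_of {D D2 : Finset (ℕ × ℕ)} {R : Finset Row} (h1 : D2 ⊆ D) (h2 : D2.card = R.card)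
    (h3 : Inj D2 R) : Ind D R := by
  obtain ⟨P, hP⟩ := h3
  exact Ind.mono ⟨P, hP.ind h2.symm⟩ h1 (Subset.refl _)

theorem goalTL : GoalTL := by
  intro hE1 hE2 M m0 e m s t hm0 hmM he hst hs ht ha
  classical
  obtain ⟨σ, σ1, σ2, σ3, σ4, σ5⟩ := enum2 s t hst
  set N := s.card + t.card with hN
  set ν : ℕ → ℕ := fun c => if c < N then m (σ c) else 1 with hν
  have hνc : ∀ c < N, ν c = m (σ c) := by
    intro c hc
    simp only [hν]
    rw [if_pos hc]
  have hν1 : ∀ c, 1 ≤ ν c := by
    intro c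
    simp only [hν]
    split_ifs with h
    · rcases Nat.lt_or_ge c s.card with h' | h'
      · exact (hs _ (σ1 c h')).1
      · exact (ht _ (σ2 c h' h)).1
    · exact le_rfl
  have hνM : ∀ c, ν c ≤ M := by
    intro c
    simp only [hν]
    split_ifs with h
    · rcases Nat.lt_or_ge c s.card with h' | h'
      · exact (hs _ (σ1 c h')).2
      · exact (ht _ (σ2 c h' h)).2.trans hmM
    · exact hm0.trans hmM
  have hνm : ∀ c, s.card ≤ c → ν c ≤ m0 := by
    intro c hc
    simp only [hν]
    split_ifs with h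
    · exact (ht _ (σ2 c hc h)).2
    · exact hm0
  have hsum1 : ∑ c ∈ range s.card, (ν c + 1).choose 2 = ∑ k ∈ s, (m k + 1).choose 2 := by
    rw [← σ4 (fun k => (m k + 1).choose 2)]
    refine sum_congr rfl (fun c hc => ?_)
    rw [mem_range] at hc
    rw [hνc c (by omega)]
  have hsum2 : ∑ c ∈ range N, (ν c + 1).choose 2 = ∑ k ∈ s ∪ t, (m k + 1).choose 2 := by
    rw [← σ5 (fun k => (m k + 1).choose 2)]
    refine sum_congr rfl (fun c hc => ?_)
    rw [mem_range] at hc
    rw [hνc c hc]
  have hrel : ∀ D : Finset (ℕ × ℕ), Inj D (rows ν (range N)) → Inj D (rows m (s ∪ t)) := by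
    intro D hD
    refine Pool.Agent.Helper43.Ah.inj_relabel σ ?_ ?_ ?_ hD
    · intro c hc
      rw [mem_range] at hc
      rw [mem_union]
      rcases Nat.lt_or_ge c s.card with h' | h'
      · exact Or.inl (σ1 c h')
      · exact Or.inr (σ2 c h' hc)
    · intro c hc c' hc' h
      exact σ3 c (mem_range.1 hc) c' (mem_range.1 hc') h
    · intro c hc
      rw [hνc c (mem_range.1 hc)]
  -- the area of the first rows
  have harea : ∑ c ∈ range s.card, (ν c + 1).choose 2 <
      ∑ y ∈ range (e + 2 - 2 * M - M), (e + 1 - y) := by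
    have h1 := Pool.Agent.Helper43.Gm.PkG.sum_tri e (e + 2 - 2 * M - M) (by omega)
    have h2 : e + 2 - (e + 2 - 2 * M - M) = 3 * M := by omega
    rw [h2] at h1
    have h3 := ch2 (e + 1)
    have h4 : 2 * (3 * M).choose 2 ≤ (3 * M) * (3 * M) := by
      obtain ⟨k, hk⟩ : ∃ k, 3 * M = k + 1 := ⟨3 * M - 1, by omega⟩
      rw [hk, ch2 k]
      exact Nat.mul_le_mul_right _ (by omega)
    have h5 : e + 1 + 1 = e + 2 := rfl
    rw [h5] at h3
    rw [hsum1]
    have h6 : (100 * M) * (100 * M) ≤ e * e := Nat.mul_le_mul he he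
    have h7 : M * M ≤ e * e := by nlinarith
    have hM1 : 1 ≤ M := hm0.trans hmM
    nlinarith
  have hM1 : 1 ≤ M := hm0.trans hmM
  constructor
  · intro hW
    obtain ⟨n, π, ε, hP, hn⟩ := hE1 M m0 (e + 1) (e + 2 - 2 * M) s.card ν (fun y => e + 1 - y)
      (Icc (e + 2 - 2 * m0) e) hm0 hmM (by omega) hν1 hνM hνm (by omega) (by omega)
      (by
        intro z hz
        rw [mem_Icc] at hz
        omega)
      (by
        intro y hy
        show e + 1 - y ≤ e + 1 - (y + 1) + 1
        omega)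
      (by
        intro y hy
        show 2 * M + 1 ≤ e + 1 - y
        omega)
      (by
        intro y hy hyR hB
        show 2 * m0 + 1 ≤ e + 1 - y
        rw [mem_Icc] at hB
        omega)
      harea
      (by
        rw [mem_Icc]
        omega)
      (3 * m0 ^ 2) N
      (by
        have hcl : cl (e + 1) (Icc (e + 2 - 2 * m0) e) = 0 := by
          unfold cl
          rw [card_eq_zero, filter_eq_empty_iff]
          intro z hz
          rw [mem_Icc] at hz
          rintro ⟨h3, h4⟩
          apply h4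
          rw [mem_Icc]
          omega
        have hcard : (Icc (e + 2 - 2 * m0) e).card = 2 * m0 - 1 := by
          rw [Nat.card_Icc]
          omega
        rw [hcl, hcard]
        show 2 * m0 * (2 * m0 - 1) + m0 * (m0 - 1) * 0 +
          (e + 1 - (e + 1 - 1) + m0) * (e + 1 - (e + 1 - 1) + m0 - 1) ≤ 2 * (3 * m0 ^ 2)
        have e1 : e + 1 - (e + 1 - 1) + m0 = m0 + 1 := by omega
        have e2 : m0 + 1 - 1 = m0 := by omega
        rw [e1, e2]
        obtain ⟨k, rfl⟩ : ∃ k, m0 = k + 1 := ⟨m0 - 1, by omega⟩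
        have e3 : 2 * (k + 1) - 1 = 2 * k + 1 := by omega
        rw [e3]
        nlinarith)
      (by
        rw [hsum2]
        have h1 := Pool.Agent.Helper43.Gm.PkG.sum_tri e (e + 1) le_rfl
        have h2 : e + 2 - (e + 1) = 1 := by omega
        rw [h2] at h1
        have h3 : (1 : ℕ).choose 2 = 0 := rfl
        rw [h3, Nat.add_zero] at h1
        show ∑ y ∈ range (e + 1), (e + 1 - y) + 3 * m0 ^ 2 ≤ _
        rw [h1]
        exact hW)
    refine hrel _ ?_
    exact Pool.Agent.Helper43.Gm.PkA.goalA 0 (e + 1) (fun _ => 0) (fun y => e + 1 - y) (triD 0 e)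
      (fun d hd => ((Pool.Agent.Helper43.Gm.PkG.reg_tri e).1 d).1 hd) N ν n π ε hP hn
  · intro hW
    obtain ⟨n, π, ε, hP, hle, heq⟩ := hE2 M m0 (e + 1) (e + 2 - 2 * M) (e + 2 - 2 * m0) s.card ν
      (fun y => e + 1 - y) hm0 hmM hν1 hνM hνm (by omega) (by omega) (by omega)
      (by
        intro y hy
        show e + 1 - y ≤ e + 1 - (y + 1) + 1
        omega)
      (by
        intro y hy
        show 2 * M + 1 ≤ e + 1 - y
        omega)
      (by
        intro y hy hy2
        show 2 * m0 + 1 ≤ e + 1 - y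
        omega)
      (by
        show e + 1 - (e + 1 - 1) ≤ 1
        omega)
      harea N
      (by
        rw [hsum2]
        have h1 := Pool.Agent.Helper43.Gm.PkG.sum_tri e (e + 2 - 2 * m0) (by omega)
        have h2 : e + 2 - (e + 2 - 2 * m0) = 2 * m0 := by omega
        rw [h2] at h1
        have h3 : (2 * m0).choose 2 ≤ 2 * m0 ^ 2 := by
          obtain ⟨k, hk⟩ : ∃ k, 2 * m0 = k + 1 := ⟨2 * m0 - 1, by omega⟩
          have h4 := ch2 k
          rw [← hk] at h4
          nlinarith
        show _ ≤ ∑ y ∈ range (e + 2 - 2 * m0), (e + 1 - y)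
        omega)
    obtain ⟨D2, h1, h2, h3⟩ := Pool.Agent.Helper43.Gm.PkF2.fin_ind
      Pool.Agent.Helper43.Gm.PkA.goalA 0 (e + 1) (fun _ => 0) (fun y => e + 1 - y) (triD 0 e)
      (Pool.Agent.Helper43.Gm.PkG.reg_tri e) N ν n π ε hP hle heq
    refine ind_of h1 ?_ (hrel _ h3)
    rw [h2, hsum2, card_rows]

end Pool.Agent.Helper19.UW
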